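import Pool.Graph.R_pool_sql_team_seeded_3997aac3.Q210.BD.LowR
import Pool.Graph.R_pool_sql_team_seeded_3997aac3.Q210.BD.OrthR
import Pool.Graph.R_pool_sql_team_seeded_3997aac3.Q286.BD.Fin2
import Pool.Graph.R_seed8.H353R3.S6
import Pool.Agent.H681.OE.XW

/-!
# Project BD, real dilations: the distance is bounded below if the Riemann hypothesis fails (job R6)
-/

set_option autoImplicit false

namespace Pool.Agent.H681.BD

open Complex MeasureTheory Filter Topology Set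
open Pool.Agent.Q286.BD (cl mz JR difR S_intR S_nrhR S_orthR)

theorem intR : S_intR := Pool.Agent.H681.OE.intR

/-- the test function -/
noncomputable def KR (ρ : ℂ) (y : ℝ) : ℂ := if y < 1 then 2 * (1 / (1 - ρ)) else (y : ℂ) ^ (-ρ - 1)

theorem KR_meas (ρ : ℂ) : Measurable (KR ρ) := by
  unfold KR
  refine Measurable.ite measurableSet_Iio measurable_const ?_
  exact Complex.measurable_ofReal.pow_const _

theorem nrhR_of (hO : S_orthR) : S_nrhR := by
  intro hRH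
  obtain ⟨ρ, hρ1, hρne, hρ0⟩ : ∃ ρ : ℂ, 1 / 2 < ρ.re ∧ ρ ≠ 1 ∧ riemannZeta ρ = 0 := by
    by_contra h
    apply hRH
    apply H353.RH_of
    intro s h1 h2 h3
    exact h ⟨s, h1, h2, h3⟩
  have hρ2 : ρ.re < 1 := by
    by_contra h
    exact riemannZeta_ne_zero_of_one_le_re (not_lt.1 h) hρ0
  have hn1 : (1 - ρ) ≠ 0 := sub_ne_zero.2 (Ne.symm hρne)
  have hn0 : ρ ≠ 0 := by
    rintro rfl
    simp at hρ1
    linarith
  have hmz : 0 < mz ρ := by
    have := Pool.Agent.Q286.BD.mz_pos ⟨ρ, hρ0, by linarith, hρ2⟩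
    exact this
  set κ : ℂ := 1 / (1 - ρ) with hκ
  set β : ℝ := ρ.re with hβ
  have e1 : ∀ y ∈ Ioo (0 : ℝ) 1, KR ρ y = 2 * κ := by
    intro y hy
    unfold KR
    rw [if_pos hy.2]
  have e0 : ∀ y ∈ Ioi (1 : ℝ), KR ρ y = (y : ℂ) ^ (-ρ - 1) := by
    intro y hy
    unfold KR
    rw [if_neg (not_lt.2 (le_of_lt hy))]
  have e2 : ∀ y ∈ Ioi (1 : ℝ), ‖KR ρ y‖ ^ 2 * y ^ 2 = y ^ (-(2 * β)) := by
    intro y hy
    have hy1 : (1 : ℝ) < y := hy
    have hy0 : 0 < y := by linarith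
    rw [e0 y hy, Complex.norm_cpow_eq_rpow_re_of_pos hy0, ← Real.rpow_natCast,
      ← Real.rpow_mul hy0.le, ← Real.rpow_natCast y 2, ← Real.rpow_add hy0]
    congr 1
    rw [sub_re, neg_re, one_re]
    push_cast
    ring
  have i1 : IntegrableOn (fun y : ℝ => ‖KR ρ y‖ ^ 2 * y ^ 2) (Ioc 0 1) := by
    rw [integrableOn_Ioc_iff_integrableOn_Ioo]
    have hc : IntegrableOn (fun y : ℝ => ‖2 * κ‖ ^ 2 * y ^ 2) (Ioo 0 1) :=
      ((by fun_prop : Continuous fun y : ℝ => ‖2 * κ‖ ^ 2 * y ^ 2).integrableOn_Icc (a := 0) (b := 1)).mono_set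
        Ioo_subset_Icc_self
    exact hc.congr_fun (fun y hy => by show _ = ‖KR ρ y‖ ^ 2 * y ^ 2; rw [e1 y hy]) measurableSet_Ioo
  have i2 : IntegrableOn (fun y : ℝ => ‖KR ρ y‖ ^ 2 * y ^ 2) (Ioi 1) := by
    refine (integrableOn_Ioi_rpow_of_lt (show -(2 * β) < -1 by linarith) one_pos).congr_fun
      (fun y hy => (e2 y hy).symm) measurableSet_Ioi
  have i3 : IntegrableOn (fun y : ℝ => ‖KR ρ y‖ ^ 2 * y ^ 2) (Ioi 0) := by
    rw [← Ioc_union_Ioi_eq_Ioi (zero_le_one' ℝ)]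
    exact i1.union i2
  have k2 : IntegrableOn (KR ρ) (Ioi 1) := by
    refine (integrableOn_Ioi_cpow_of_lt (a := -ρ - 1) (by rw [sub_re, neg_re, one_re]; linarith) one_pos).congr_fun
      (fun y hy => (e0 y hy).symm) measurableSet_Ioi
  have k1 : IntegrableOn (KR ρ) (Ioc 0 1) := by
    rw [integrableOn_Ioc_iff_integrableOn_Ioo]
    exact (integrableOn_const (C := 2 * κ) (by simp)).congr_fun (fun y hy => (e1 y hy).symm) measurableSet_Ioo
  have k3 : IntegrableOn (KR ρ) (Ioi 0) := by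
    rw [← Ioc_union_Ioi_eq_Ioi (zero_le_one' ℝ)]
    exact k1.union k2
  set B : ℝ := ∫ y in Ioi (0 : ℝ), ‖KR ρ y‖ ^ 2 * y ^ 2 with hB
  have hB0 : 0 ≤ B := integral_nonneg fun y => by positivity
  -- the integral over `(1, ∞)`
  have j1 : ∫ y in Ioi (1 : ℝ), KR ρ y = 1 / ρ := by
    rw [setIntegral_congr_fun measurableSet_Ioi e0,
      integral_Ioi_cpow_of_lt (by rw [sub_re, neg_re, one_re]; linarith) one_pos]
    rw [ofReal_one, one_cpow, sub_add_cancel]
    field_simp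
  -- orthogonality
  have j2 : ∀ θ : ℝ, 0 < θ → θ ≤ 1 → ∫ y in Ioi (0 : ℝ), ((Int.fract (θ * y) : ℝ) : ℂ) * KR ρ y = 0 := by
    intro θ h0 h1
    have hint := Pool.Agent.Q210.BD.frK k3 θ
    have h2 : ∫ y in Ioi (0 : ℝ), ((Int.fract (θ * y) : ℝ) : ℂ) * KR ρ y =
        (∫ y in Ioc (0 : ℝ) 1, ((Int.fract (θ * y) : ℝ) : ℂ) * KR ρ y) +
          ∫ y in Ioi (1 : ℝ), ((Int.fract (θ * y) : ℝ) : ℂ) * KR ρ y := by
      rw [← Ioc_union_Ioi_eq_Ioi (zero_le_one' ℝ)] at hint ⊢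
      exact setIntegral_union (Set.disjoint_left.2 fun x hx hx2 => absurd hx.2 (not_le.2 hx2)) measurableSet_Ioi
        (hint.mono_set subset_union_left) (hint.mono_set subset_union_right)
    have h3 : ∫ y in Ioc (0 : ℝ) 1, ((Int.fract (θ * y) : ℝ) : ℂ) * KR ρ y = θ * κ := by
      rw [integral_Ioc_eq_integral_Ioo]
      have h4 : ∀ y ∈ Ioo (0 : ℝ) 1, ((Int.fract (θ * y) : ℝ) : ℂ) * KR ρ y = ((θ * y : ℝ) : ℂ) * (2 * κ) := by
        intro y hy
        have hf : Int.fract (θ * y) = θ * y := by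
          rw [Int.fract_eq_self]
          refine ⟨by have := hy.1; positivity, ?_⟩
          nlinarith [hy.1, hy.2]
        rw [hf, e1 y hy]
      rw [setIntegral_congr_fun measurableSet_Ioo h4, ← integral_Ioc_eq_integral_Ioo,
        ← intervalIntegral.integral_of_le (zero_le_one' ℝ), intervalIntegral.integral_mul_const]
      have h5 : ∫ y in (0 : ℝ)..1, ((θ * y : ℝ) : ℂ) = ((θ / 2 : ℝ) : ℂ) := by
        rw [intervalIntegral.integral_ofReal]
        congr 1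
        rw [intervalIntegral.integral_const_mul, integral_id]
        ring
      rw [h5]
      push_cast
      ring
    have h4 : ∫ y in Ioi (1 : ℝ), ((Int.fract (θ * y) : ℝ) : ℂ) * KR ρ y = -(θ * κ) := by
      have h5 := (hO ρ (by linarith) hρ2 0 θ hmz h0 h1).2
      have h6 : ∫ y in Ioi (1 : ℝ), ((Int.fract (θ * y) : ℝ) : ℂ) * KR ρ y =
          ∫ y in Ioi (1 : ℝ), ((Int.fract (θ * y) : ℝ) : ℂ) * (y : ℂ) ^ (-ρ - 1) *
            ((Real.log y : ℝ) : ℂ) ^ 0 := by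
        refine setIntegral_congr_fun measurableSet_Ioi fun y hy => ?_
        show _ * KR ρ y = _
        rw [e0 y hy, pow_zero, mul_one]
      rw [h6, h5, hκ]
      simp only [pow_zero, Nat.factorial_zero, Nat.cast_one, mul_one, zero_add, pow_one]
    rw [h2, h3, h4, add_neg_cancel]
  have hρn : 0 < ‖ρ‖ := norm_pos_iff.2 hn0
  set r : ℝ := (1 / ρ).re with hr
  have hr0 : 0 < r := by
    rw [hr, one_div, Complex.inv_re]
    have : 0 < Complex.normSq ρ := Complex.normSq_pos.2 hn0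
    have : 0 < ρ.re := by linarith
    positivity
  refine ⟨r ^ 2 / (B + 1), by positivity, fun a ha => ?_⟩
  have h1 := Pool.Agent.Q210.BD.dual intR a ha k3 i3 (fun θ hθ => j2 θ (ha θ hθ).1 (ha θ hθ).2) (r / (B + 1))
  rw [j1, ← hr, ← hB] at h1
  have hB1 : 0 < B + 1 := by linarith
  rw [div_le_iff₀ hB1]
  have h2 : 2 * (r / (B + 1)) * r * (B + 1) = 2 * r ^ 2 := by field_simp
  have h3 : (r / (B + 1)) ^ 2 * B * (B + 1) ≤ r ^ 2 := by
    have : (r / (B + 1)) ^ 2 * B * (B + 1) = r ^ 2 * (B / (B + 1)) := by field_simp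
    rw [this]
    have h4 : B / (B + 1) ≤ 1 := by rw [div_le_one hB1]; linarith
    nlinarith [sq_nonneg r]
  nlinarith

end Pool.Agent.H681.BD
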