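import Pool.Graph.R_pool_sql_team_seeded_3997aac3.Q210.BD.LowR
import Pool.Graph.R_pool_sql_team_seeded_3997aac3.Q210.BD.OrthR
import Pool.Graph.R_pool_sql_team_seeded_3997aac3.Q210.BD.Band
import Pool.Graph.R_pool_sql_team_seeded_3997aac3.Q210.BD.TN
import Pool.Graph.R_pool_sql_team_seeded_3997aac3.Q258.BD.TR
import Pool.Graph.R_pool_sql_team_seeded_3997aac3.Q202.BD.Leg
import Pool.Graph.R_pool_sql_team_seeded_3997aac3.Q286.BD.Fin2
import Pool.Agent.H681.BD.NrhR

/-!
# Project BD, real dilations: all jobs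
-/

set_option autoImplicit false

namespace Pool.Agent.H681.BD

open Pool.Agent.Q286.BD

theorem orthR : S_orthR := Pool.Agent.Q210.BD.orthR

theorem band : S_band := Pool.Agent.Q210.BD.band

theorem tR : S_TR := Pool.Agent.Q258.BD.tR orthR band

theorem tN : S_TN := Pool.Agent.Q210.BD.tN

theorem lowR : S_lowR := Pool.Agent.Q210.BD.lowR Pool.Agent.Q202.BD.leg tR tN intR

theorem nrhR : S_nrhR := nrhR_of orthR

end Pool.Agent.H681.BD
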